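import Pool.Agent.X228.FW.Tree

/-!
# The patterns 1243 and 3412 with adjacent first two entries are des-Wilf equivalent

Both classes are grown by inserting a new first entry. The states are the value of the first entry
and the least `v` such that the entries `> v` are monotone; this gives two generating trees with
states `A (a, b)`, `B (c, t, b)` and different weights. If `f1`, `f2` are the total weights of `r`
steps of the two trees, and `S f (a, c)` is the sum of `f (a + j, c - 1 - j)`, `j < c`, then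
`q S f1^r (a, c) = (q-1)^(r+1) ((c, r+1)) + sum_i ((c, i)) (q-1)^i S f2^(r-i) (a, c + i)`,
with the multiset coefficients `((c, i))`; the case `a = 0`, `c = 1` telescopes to
`f1^r (0, 0) = f2^r (0, 0)`.
-/

set_option autoImplicit false

namespace Pool.Agent.Results.MP_668c10_co.Hat1243Hat3412

open Finset Polynomial Classical
open Pool.Agent.X228.FW

/-- `σ` contains the pattern `p` with the strip between the first two points shaded: there are
positions `i 0 < i 1 < i 2 < i 3` with `i 1 = i 0 + 1` whose entries are in the relative order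
of `p`. -/
def Contains (p : Fin 4 → ℕ) {n : ℕ} (σ : Equiv.Perm (Fin n)) : Prop :=
  ∃ i : Fin 4 → Fin n, StrictMono i ∧ (i 1 : ℕ) = i 0 + 1 ∧ ∀ a b, σ (i a) < σ (i b) ↔ p a < p b

/-- The number of descents. -/
noncomputable def des {n : ℕ} (σ : Equiv.Perm (Fin n)) : ℕ :=
  (univ.filter fun i : Fin n => ∃ h : (i : ℕ) + 1 < n, σ ⟨i + 1, h⟩ < σ i).card

/-- The descent polynomial of the permutations of `n` letters that avoid the pattern. -/
noncomputable def F (p : Fin 4 → ℕ) (n : ℕ) : ℤ[X] :=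
  ∑ σ ∈ univ.filter (fun σ : Equiv.Perm (Fin n) => ¬ Contains p σ), X ^ des σ

/-- A permutation as a function on the natural numbers. -/
def tv {m : ℕ} (σ : Equiv.Perm (Fin (m + 1))) : ℕ → ℕ := fun i =>
  if h : i < m + 1 then (σ ⟨i, h⟩ : ℕ) else 0

/-- Reversal. -/
def rv {m : ℕ} (σ : Equiv.Perm (Fin (m + 1))) : ℕ → ℕ := fun k =>
  if k < m + 1 then tv σ (m - k) else 0

theorem tv_lt {m : ℕ} (σ : Equiv.Perm (Fin (m + 1))) {i : ℕ} (h : i < m + 1) :
    tv σ i = σ ⟨i, h⟩ := by simp [tv, h]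

theorem tv_val {m : ℕ} (σ : Equiv.Perm (Fin (m + 1))) (i : Fin (m + 1)) : tv σ i = σ i :=
  tv_lt σ i.2

theorem rv_lt {m : ℕ} (σ : Equiv.Perm (Fin (m + 1))) {k : ℕ} (h : k < m + 1) :
    rv σ k = tv σ (m - k) := by simp [rv, h]

theorem rv_PL {m : ℕ} (σ : Equiv.Perm (Fin (m + 1))) : PL (m + 1) (rv σ) where
  zero i hi := by simp [rv, not_lt.2 hi]
  lt i hi := by
    rw [rv_lt σ hi, tv_lt σ (show m - i < m + 1 by omega)]
    exact (σ _).2
  inj i hi j hj h := by
    rw [rv_lt σ hi, rv_lt σ hj, tv_lt σ (show m - i < m + 1 by omega),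
      tv_lt σ (show m - j < m + 1 by omega)] at h
    have := congrArg Fin.val (σ.injective (Fin.ext h))
    simp only at this
    omega

theorem rv_inj {m : ℕ} {σ τ : Equiv.Perm (Fin (m + 1))} (h : rv σ = rv τ) : σ = τ := by
  ext i
  have h1 := congrFun h (m - i)
  have hi := i.2
  rw [rv_lt σ (show m - i < m + 1 by omega), rv_lt τ (show m - i < m + 1 by omega),
    show m - (m - (i : ℕ)) = i by omega, tv_val, tv_val] at h1
  exact h1

theorem rv_surj {m : ℕ} {f : ℕ → ℕ} (hf : PL (m + 1) f) :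
    ∃ σ : Equiv.Perm (Fin (m + 1)), rv σ = f := by
  have h1 : Function.Injective fun i : Fin (m + 1) =>
      (⟨f (m - i), hf.lt _ (by omega)⟩ : Fin (m + 1)) := by
    intro i j hij
    have := hf.inj (m - i) (by omega) (m - j) (by omega) (congrArg Fin.val hij)
    exact Fin.ext (by omega)
  refine ⟨Equiv.ofBijective _ (Finite.injective_iff_bijective.1 h1), ?_⟩
  funext k
  rcases Nat.lt_or_ge k (m + 1) with h | h
  · rw [rv_lt _ h, tv_lt _ (show m - k < m + 1 by omega)]
    show f (m - (m - k)) = f k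
    rw [show m - (m - k) = k by omega]
  · rw [hf.zero k h]
    simp [rv, not_lt.2 h]

theorem sum_rv {R : Type*} [AddCommMonoid R] (m : ℕ) (h : (ℕ → ℕ) → R) :
    ∑ σ : Equiv.Perm (Fin (m + 1)), h (rv σ) = ∑ f ∈ PM m, h f := by
  refine sum_bij (fun σ _ => rv σ) (fun σ _ => (mem_PM m _).2 (rv_PL σ))
    (fun σ _ τ _ e => rv_inj e) (fun f hf => ?_) (fun σ _ => rfl)
  obtain ⟨σ, hσ⟩ := rv_surj ((mem_PM m f).1 hf)
  exact ⟨σ, mem_univ _, hσ⟩

/-- Complement. -/
def cp {m : ℕ} (σ : Equiv.Perm (Fin (m + 1))) : Equiv.Perm (Fin (m + 1)) := σ.trans Fin.revPerm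

theorem tv_cp {m : ℕ} (σ : Equiv.Perm (Fin (m + 1))) {i : ℕ} (h : i < m + 1) :
    tv (cp σ) i = m - tv σ i := by
  rw [tv_lt _ h, tv_lt _ h]
  show ((Fin.rev (σ ⟨i, h⟩) : Fin (m + 1)) : ℕ) = _
  rw [Fin.val_rev]
  omega

theorem tv_le {m : ℕ} (σ : Equiv.Perm (Fin (m + 1))) {i : ℕ} (h : i < m + 1) : tv σ i ≤ m := by
  rw [tv_lt _ h]
  have := (σ ⟨i, h⟩).2
  omega

theorem tv_ne {m : ℕ} (σ : Equiv.Perm (Fin (m + 1))) {i j : ℕ} (hi : i < m + 1) (hj : j < m + 1)
    (h : i ≠ j) : tv σ i ≠ tv σ j := by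
  rw [tv_lt _ hi, tv_lt _ hj]
  intro e
  exact h (congrArg Fin.val (σ.injective (Fin.ext e)))

theorem sum_cp {R : Type*} [AddCommMonoid R] (m : ℕ) (h : Equiv.Perm (Fin (m + 1)) → R) :
    ∑ σ : Equiv.Perm (Fin (m + 1)), h (cp σ) = ∑ σ, h σ := by
  refine Fintype.sum_bijective cp ⟨?_, ?_⟩ _ _ fun _ => rfl
  · intro σ τ e
    ext i
    have h1 : Fin.rev (σ i) = Fin.rev (τ i) := congrFun (congrArg DFunLike.coe e) i
    rw [Fin.rev_inj] at h1
    rw [h1]
  · intro σ
    refine ⟨cp σ, ?_⟩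
    ext i
    show ((Fin.rev (Fin.rev (σ i)) : Fin (m + 1)) : ℕ) = _
    rw [Fin.rev_rev]

theorem pow_des {R : Type*} [CommRing R] (q : R) {m : ℕ} (σ : Equiv.Perm (Fin (m + 1))) :
    q ^ des σ = ∏ i ∈ range m, if tv σ (i + 1) < tv σ i then q else 1 := by
  have h1 : q ^ des σ = ∏ i : Fin (m + 1),
      (fun i : ℕ => if (i + 1 < m + 1 ∧ tv σ (i + 1) < tv σ i) then q else 1) i := by
    unfold des
    rw [prod_ite, prod_const_one, mul_one, prod_const]
    congr 2
    ext i
    simp only [mem_filter, mem_univ, true_and]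
    constructor
    · rintro ⟨h, h2⟩
      refine ⟨h, ?_⟩
      rw [tv_lt σ h, tv_val]
      exact h2
    · rintro ⟨h, h2⟩
      refine ⟨h, ?_⟩
      rw [tv_lt σ h, tv_val] at h2
      exact h2
  rw [h1, Fin.prod_univ_eq_prod_range (fun i : ℕ =>
    if (i + 1 < m + 1 ∧ tv σ (i + 1) < tv σ i) then q else 1) (m + 1), prod_range_succ,
    if_neg (by omega), mul_one]
  refine prod_congr rfl fun i hi => ?_
  have hi' := mem_range.1 hi
  have : (i + 1 < m + 1 ∧ tv σ (i + 1) < tv σ i) ↔ tv σ (i + 1) < tv σ i :=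
    ⟨fun h => h.2, fun h => ⟨by omega, h⟩⟩
  simp only [this]

theorem W_rv {R : Type*} [CommRing R] (q : R) {m : ℕ} (σ : Equiv.Perm (Fin (m + 1))) :
    W q 1 (m + 1) (rv σ) = q ^ des σ := by
  rw [pow_des, ← prod_range_reflect]
  unfold W
  rw [show m + 1 - 1 = m by omega]
  refine prod_congr rfl fun c hc => ?_
  have hc' := mem_range.1 hc
  rw [rv_lt σ (show c < m + 1 by omega), rv_lt σ (show c + 1 < m + 1 by omega),
    show m - c = m - 1 - c + 1 by omega, show m - (c + 1) = m - 1 - c by omega]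

theorem W_rv_cp {R : Type*} [CommRing R] (q : R) {m : ℕ} (σ : Equiv.Perm (Fin (m + 1))) :
    W 1 q (m + 1) (rv (cp σ)) = q ^ des σ := by
  rw [pow_des, ← prod_range_reflect]
  unfold W
  rw [show m + 1 - 1 = m by omega]
  refine prod_congr rfl fun c hc => ?_
  have hc' := mem_range.1 hc
  rw [rv_lt _ (show c < m + 1 by omega), rv_lt _ (show c + 1 < m + 1 by omega),
    show m - c = m - 1 - c + 1 by omega, show m - (c + 1) = m - 1 - c by omega,
    tv_cp σ (show m - 1 - c + 1 < m + 1 by omega), tv_cp σ (show m - 1 - c < m + 1 by omega)]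
  have h1 := tv_le σ (show m - 1 - c + 1 < m + 1 by omega)
  have h2 := tv_le σ (show m - 1 - c < m + 1 by omega)
  have h3 := tv_ne σ (show m - 1 - c + 1 < m + 1 by omega) (show m - 1 - c < m + 1 by omega)
    (by omega)
  by_cases h : tv σ (m - 1 - c + 1) < tv σ (m - 1 - c)
  · rw [if_pos h, if_neg (by omega)]
  · rw [if_neg h, if_pos (by omega)]

theorem contains_iff (p : Fin 4 → ℕ) {m : ℕ} (σ : Equiv.Perm (Fin (m + 1))) :
    Contains p σ ↔ ∃ a b c d : ℕ, b = a + 1 ∧ b < c ∧ c < d ∧ d < m + 1 ∧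
      ∀ x y, ![tv σ a, tv σ b, tv σ c, tv σ d] x < ![tv σ a, tv σ b, tv σ c, tv σ d] y ↔
        p x < p y := by
  constructor
  · rintro ⟨i, h1, h2, h3⟩
    have e1 : i 1 < i 2 := h1 (by decide)
    have e2 : i 2 < i 3 := h1 (by decide)
    refine ⟨i 0, i 1, i 2, i 3, h2, e1, e2, (i 3).2, ?_⟩
    have e3 : ![tv σ (i 0), tv σ (i 1), tv σ (i 2), tv σ (i 3)] = fun x => (σ (i x) : ℕ) := by
      funext x
      fin_cases x <;> simp [tv_val]
    rw [e3]
    exact h3
  · rintro ⟨a, b, c, d, h1, h2, h3, h4, h5⟩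
    refine ⟨![⟨a, by omega⟩, ⟨b, by omega⟩, ⟨c, by omega⟩, ⟨d, h4⟩], ?_, h1, ?_⟩
    · rw [Fin.strictMono_iff_lt_succ]
      intro x
      fin_cases x
      · show a < b; omega
      · show b < c; omega
      · show c < d; omega
    · have e3 : ![tv σ a, tv σ b, tv σ c, tv σ d] = fun x =>
          (σ ((![⟨a, by omega⟩, ⟨b, by omega⟩, ⟨c, by omega⟩, ⟨d, h4⟩] : Fin 4 → Fin (m + 1)) x) : ℕ) := by
        funext x
        fin_cases x
        · exact tv_lt σ (show a < m + 1 by omega)
        · exact tv_lt σ (show b < m + 1 by omega)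
        · exact tv_lt σ (show c < m + 1 by omega)
        · exact tv_lt σ h4
      rw [e3] at h5
      exact h5

theorem av1_iff {m : ℕ} (σ : Equiv.Perm (Fin (m + 1))) :
    ¬ Contains ![1, 2, 4, 3] σ ↔ Av1 (m + 1) (rv σ) := by
  rw [contains_iff]
  constructor
  · intro H i j c h1 h2 h3 h4
    rw [rv_lt σ (show c + 1 < m + 1 by omega), rv_lt σ (show c < m + 1 by omega),
      rv_lt σ (show i < m + 1 by omega), rv_lt σ (show j < m + 1 by omega)] at h4
    obtain ⟨h4, h5, h6⟩ := h4
    apply H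
    refine ⟨m - (c + 1), m - c, m - j, m - i, by omega, by omega, by omega, by omega, ?_⟩
    intro x y
    fin_cases x <;> fin_cases y <;> simp <;> omega
  · rintro H ⟨a, b, c, d, h1, h2, h3, h4, h5⟩
    apply H (m - d) (m - c) (m - b) (by omega) (by omega) (by omega)
    rw [rv_lt σ (show m - b + 1 < m + 1 by omega), rv_lt σ (show m - b < m + 1 by omega),
      rv_lt σ (show m - d < m + 1 by omega), rv_lt σ (show m - c < m + 1 by omega),
      show m - (m - b + 1) = a by omega, show m - (m - b) = b by omega,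
      show m - (m - d) = d by omega, show m - (m - c) = c by omega]
    have e1 := (h5 0 1).2 (by simp)
    have e2 := (h5 1 3).2 (by simp)
    have e3 := (h5 3 2).2 (by simp)
    simp at e1 e2 e3
    exact ⟨e1, e2, e3⟩

theorem av2_iff {m : ℕ} (σ : Equiv.Perm (Fin (m + 1))) :
    ¬ Contains ![3, 4, 1, 2] σ ↔ Av2 (m + 1) (rv (cp σ)) := by
  rw [contains_iff]
  constructor
  · intro H i j c h1 h2 h3 h4
    rw [rv_lt _ (show c + 1 < m + 1 by omega), rv_lt _ (show c < m + 1 by omega),
      rv_lt _ (show i < m + 1 by omega), rv_lt _ (show j < m + 1 by omega),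
      tv_cp σ (show m - (c + 1) < m + 1 by omega), tv_cp σ (show m - c < m + 1 by omega),
      tv_cp σ (show m - i < m + 1 by omega), tv_cp σ (show m - j < m + 1 by omega)] at h4
    obtain ⟨h4, h5, h6⟩ := h4
    have e1 := tv_le σ (show m - (c + 1) < m + 1 by omega)
    have e2 := tv_le σ (show m - c < m + 1 by omega)
    have e3 := tv_le σ (show m - i < m + 1 by omega)
    have e4 := tv_le σ (show m - j < m + 1 by omega)
    apply H
    refine ⟨m - (c + 1), m - c, m - j, m - i, by omega, by omega, by omega, by omega, ?_⟩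
    intro x y
    fin_cases x <;> fin_cases y <;> simp <;> omega
  · rintro H ⟨a, b, c, d, h1, h2, h3, h4, h5⟩
    apply H (m - d) (m - c) (m - b) (by omega) (by omega) (by omega)
    rw [rv_lt _ (show m - b + 1 < m + 1 by omega), rv_lt _ (show m - b < m + 1 by omega),
      rv_lt _ (show m - d < m + 1 by omega), rv_lt _ (show m - c < m + 1 by omega),
      show m - (m - b + 1) = a by omega, show m - (m - b) = b by omega,
      show m - (m - d) = d by omega, show m - (m - c) = c by omega,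
      tv_cp σ (show a < m + 1 by omega), tv_cp σ (show b < m + 1 by omega),
      tv_cp σ (show c < m + 1 by omega), tv_cp σ (show d < m + 1 by omega)]
    have f1 := tv_le σ (show a < m + 1 by omega)
    have f2 := tv_le σ (show b < m + 1 by omega)
    have f3 := tv_le σ (show c < m + 1 by omega)
    have f4 := tv_le σ (show d < m + 1 by omega)
    have e1 := (h5 0 1).2 (by simp)
    have e2 := (h5 3 0).2 (by simp)
    have e3 := (h5 2 3).2 (by simp)
    simp at e1 e2 e3
    omega

/-- The shaded patterns `1243` and `3412` are des-Wilf equivalent. -/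
theorem result (n : ℕ) : F ![1, 2, 4, 3] n = F ![3, 4, 1, 2] n := by
  rcases n with _ | m
  · have h : ∀ (p : Fin 4 → ℕ) (σ : Equiv.Perm (Fin 0)), ¬ Contains p σ := by
      rintro p σ ⟨i, _⟩
      exact (i 0).elim0
    unfold F
    simp only [h, not_false_eq_true, filter_true]
  · have e1 : F ![1, 2, 4, 3] (m + 1) = (V1 (X : ℤ[X]) m).1 0 0 := by
      rw [← sum1, ← sum_rv m (fun f => if Av1 (m + 1) f then W (X : ℤ[X]) 1 (m + 1) f else 0)]
      unfold F
      rw [sum_filter]
      refine sum_congr rfl fun σ _ => ?_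
      simp only [av1_iff, W_rv]
    have e2 : F ![3, 4, 1, 2] (m + 1) = (V2 (X : ℤ[X]) m).1 0 0 := by
      rw [← sum2, ← sum_rv m (fun f => if Av2 (m + 1) f then W 1 (X : ℤ[X]) (m + 1) f else 0),
        ← sum_cp m (fun σ => if Av2 (m + 1) (rv σ) then W 1 (X : ℤ[X]) (m + 1) (rv σ) else 0)]
      unfold F
      rw [sum_filter]
      refine sum_congr rfl fun σ _ => ?_
      simp only [av2_iff, W_rv_cp]
    rw [e1, e2]
    exact V1_eq_V2 X (fun x y h => mul_left_cancel₀ X_ne_zero h) m

end Pool.Agent.Results.MP_668c10_co.Hat1243Hat3412
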